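import Mathlib
import Pool.Agent.TH292.LS.Dil3
import Pool.Agent.TH292.LS.Sol2
set_option autoImplicit false

/-! MP_ee74d2_an: local smoothing for the Euclidean wave equation and dilated data
`u₀(x_1, c_2 x_2, …, c_d x_d)`, `u₁(x_1, c_2 x_2, …, c_d x_d)`, on average over
`c ∈ [α, β]^(d-1)`, hence for almost every `c` once the data are given: for `2 ≤ p ≤ 4`, in every
dimension, every `s > 1/2 - 1/p` derivatives suffice. -/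

namespace Pool.Agent.Results.MP_ee74d2_an.AlmostEveryDilation

open MeasureTheory Set
open scoped ENNReal FourierTransform RealInnerProductSpace SchwartzMap

/-- `ℝ^n` with the Euclidean norm -/
abbrev V (n : ℕ) : Type := EuclideanSpace ℝ (Fin n)

/-- the dilation `x ↦ (x_1, c_2 x_2, …, c_d x_d)` of `ℝ^d`, `d = m + 1` -/
noncomputable def dil {m : ℕ} (c : Fin m → ℝ) (x : V (m + 1)) : V (m + 1) :=
  WithLp.toLp 2 fun j => (Fin.cons 1 c : Fin (m + 1) → ℝ) j * x j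

/-- `(I - Δ)^(r/2) u`, that is, `(1 + 4 π² |ξ|²)^(r/2)` on the Fourier side -/
noncomputable def bessel {n : ℕ} (r : ℝ) (u : V n → ℂ) (x : V n) : ℂ :=
  ∫ ξ : V n, Complex.exp (((2 * Real.pi * ⟪x, ξ⟫ : ℝ) : ℂ) * Complex.I) *
    ((((1 + 4 * Real.pi ^ 2 * ‖ξ‖ ^ 2) ^ (r / 2) : ℝ) : ℂ) * 𝓕 u ξ)

/-- the solution at time `t` of the wave equation with `u(0) = u₀`, `∂_t u(0) = u₁`: its Fourier
transform is `cos(2π t |ξ|) û₀(ξ) + t sinc(2π t |ξ|) û₁(ξ)` -/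
noncomputable def wave {n : ℕ} (u₀ u₁ : V n → ℂ) (t : ℝ) (x : V n) : ℂ :=
  ∫ ξ : V n, Complex.exp (((2 * Real.pi * ⟪x, ξ⟫ : ℝ) : ℂ) * Complex.I) *
    (((Real.cos (2 * Real.pi * t * ‖ξ‖) : ℝ) : ℂ) * 𝓕 u₀ ξ +
      ((t * Real.sinc (2 * Real.pi * t * ‖ξ‖) : ℝ) : ℂ) * 𝓕 u₁ ξ)

/-- `f` is differentiable everywhere and its derivative has the derivative `v` at `r` -/
def SecondDeriv (f : ℝ → ℂ) (v : ℂ) (r : ℝ) : Prop :=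
  ∃ f' : ℝ → ℂ, (∀ y, HasDerivAt f (f' y) y) ∧ HasDerivAt f' v r

/-- pointwise, `u(0) = u₀`, `∂_t u(0) = u₁` and `∂_t² u = ∑_j ∂_j² u` -/
def Solves {n : ℕ} (u₀ u₁ : V n → ℂ) (u : ℝ → V n → ℂ) : Prop :=
  ∀ x : V n, u 0 x = u₀ x ∧ HasDerivAt (fun t => u t x) (u₁ x) 0 ∧
    ∀ t : ℝ, ∃ D : Fin n → ℂ,
      (∀ j, SecondDeriv (fun r => u t (x + r • EuclideanSpace.single j (1 : ℝ))) (D j) 0) ∧
      SecondDeriv (fun t => u t x) (∑ j, D j) t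

/-- `∫_1^2 ‖u(t)‖_p^p dt` for the solution `u` of the wave equation on `ℝ^d` with the data
`u₀ ∘ dil c` and `u₁ ∘ dil c` -/
noncomputable def smoothing {m : ℕ} (p : ℝ) (u₀ u₁ : V (m + 1) → ℂ) (c : Fin m → ℝ) : ℝ≥0∞ :=
  ∫⁻ t in Icc (1 : ℝ) 2, ∫⁻ x : V (m + 1),
    ‖wave (fun y => u₀ (dil c y)) (fun y => u₁ (dil c y)) t x‖ₑ ^ p

/-- `‖u‖^p` in the Bessel potential space `L^p_r` -/
noncomputable def sobolev {n : ℕ} (p r : ℝ) (u : V n → ℂ) : ℝ≥0∞ := ∫⁻ x, ‖bessel r u x‖ₑ ^ p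

theorem result :
    (∀ (m : ℕ) (c : Fin m → ℝ) (u₀ u₁ : 𝓢(V (m + 1), ℂ)), (∀ j, 0 < c j) →
      Solves (fun y => u₀ (dil c y)) (fun y => u₁ (dil c y))
        (wave (fun y => u₀ (dil c y)) fun y => u₁ (dil c y))) ∧
    ∀ (m : ℕ) (p s : ℝ), 2 ≤ p → p ≤ 4 → 1 / 2 - 1 / p < s →
      (∀ α β : ℝ, 0 < α → α ≤ β → ∃ C : ℝ, 0 < C ∧ ∀ u₀ u₁ : 𝓢(V (m + 1), ℂ),
        ∫⁻ c in (univ.pi fun _ : Fin m => Icc α β), smoothing p u₀ u₁ c ≤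
          ENNReal.ofReal C * (sobolev p s u₀ + sobolev p (s - 1) u₁)) ∧
      (∀ u₀ u₁ : ℕ → 𝓢(V (m + 1), ℂ),
        ∑' k, (sobolev p s (u₀ k) ^ (1 / p) + sobolev p (s - 1) (u₁ k) ^ (1 / p)) < ⊤ →
        ∀ᵐ c : Fin m → ℝ, (∀ j, 0 < c j) →
          ∑' k, smoothing p (u₀ k) (u₁ k) c ^ (1 / p) < ⊤) := by
  refine ⟨fun m c u₀ u₁ hc x => ?_, fun m p s hp hp4 hs => ⟨fun α β hα hαβ => ?_, ?_⟩⟩
  · exact Pool.Agent.TH292.LS.wav_solves (Pool.Agent.TH292.LS.cn_pos hc) u₀ u₁ x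
  · exact Pool.Agent.TH292.LS.wav_one m hp hp4 hs hα hαβ
  · intro u₀ u₁ hu
    exact Pool.Agent.TH292.LS.wav_two m hp hp4 hs u₀ u₁ hu

end Pool.Agent.Results.MP_ee74d2_an.AlmostEveryDilation
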