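import Pool.Agent.TH218.LS.Main2
import Pool.Agent.TH496.LS_MOD
import Pool.Agent.TH889.LS_W
import Pool.Agent.TH889.LS_DUAL
import Pool.Agent.TH73.LS_LS4
import Pool.Agent.TH986.LS_SUM
import Pool.Agent.TH883.LS.LSB_E4R
import Pool.Agent.TH499.LSC_SUMK
import Pool.Agent.TH346.LSC_ONEK
import Pool.Agent.TH148.LSC_T2K
import Pool.Agent.TH902.LSC_T4K
import Pool.Agent.TH962.LSC_TPK
set_option autoImplicit false

/-! # Local smoothing in `ℝ³` for data whose slices have level sets of controlled perimeter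

The estimate of Q1 for `d = 3` in the whole open range `3 ≤ p < 4` (even for `2 < p ≤ 4`), with
`s_p - σ` replaced by any `s > max(0, 1 - 3/p)` (for `3 ≤ p` and `σ < 1/p` the number
`s_p - σ = 1 - 2/p - σ` is such an `s`), for all data `f` on `ℝ³` of the following kind: in
orthonormal coordinates `(y, x) ∈ ℝ² × ℝ`, `f(y, x) = b(x) F_x(y)` where `b` is arbitrary, the
functions `F_x` on `ℝ²` depend on `x` in an arbitrary way, and the superlevel sets of each `F_x`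
(of `± Re F_x`, `± Im F_x`) at positive levels have area at most `N` and isoperimetric quotient
`perimeter² / area` at most `N`. For instance `F_x` may be the indicator function of any set of
area `≤ N` and isoperimetric quotient `≤ N`; there is no bound of the `F_x`.

The file also contains the variant `variation_data`, with a condition on the variation of the
slices instead of their level sets.
-/

open MeasureTheory Set
open scoped ENNReal FourierTransform RealInnerProductSpace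

namespace Pool.Agent.Results.MP_ee74d2_an.PerimeterSlices

/-- `ℝ³` -/
abbrev E : Type := EuclideanSpace ℝ (Fin 3)

/-- The variation of a function `g` on `ℝ²`: the supremum over `h ≠ 0` of
`|h|⁻¹ ∫ |g(y+h) - g(y)| dy`, where `|h|` is the Euclidean length. (It is at most the total
variation of the measure `Dg`, and at least half of it.) -/
noncomputable def variation (g : (Fin 2 → ℝ) → ℂ) : ℝ≥0∞ :=
  ⨆ h : Fin 2 → ℝ,
    (∫⁻ y : Fin 2 → ℝ, ‖g (y + h) - g y‖ₑ) / ENNReal.ofReal (Real.sqrt (h 0 ^ 2 + h 1 ^ 2))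

/-- The perimeter of a set `K` in the plane: the variation of its indicator function, i.e. the
supremum over `h ≠ 0` of `|h|⁻¹` times the area of the symmetric difference of `K` and `K - h`. -/
noncomputable def perimeter (K : Set (Fin 2 → ℝ)) : ℝ≥0∞ := variation (K.indicator 1)

/-- The condition on a function `F : ℝ² → ℂ`: for `c ∈ {1, -1, i, -i}` and all `l > 0` the set
`K = {y | Re(c F(y)) > l}` satisfies `area(K) ≤ N` and `perimeter(K)² ≤ N area(K)`. (So this is a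
condition on the sets `{Re F > l}`, `{Re F < -l}`, `{Im F > l}`, `{Im F < -l}`.) -/
def GoodLevels (N : ℝ) (F : (Fin 2 → ℝ) → ℂ) : Prop :=
  ∀ c ∈ ({1, -1, Complex.I, -Complex.I} : Set ℂ), ∀ l : ℝ, 0 < l →
    volume {y | l < (c * F y).re} ≤ ENNReal.ofReal N ∧
    perimeter {y | l < (c * F y).re} ^ 2 ≤ ENNReal.ofReal N * volume {y | l < (c * F y).re}

/-- The class of data: for some linear isometry `L` of `ℝ³`, `f(L(y₀, y₁, x)) = b(x) F_x(y)` for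
all `x ∈ ℝ`, `y = (y₀, y₁) ∈ ℝ²`, where `b : ℝ → ℂ` is arbitrary and `F_x : ℝ² → ℂ` satisfies
`GoodLevels N` for almost every `x`. -/
def Data (N : ℝ) (f : E → ℂ) : Prop :=
  ∃ (L : E ≃ₗᵢ[ℝ] E) (b : ℝ → ℂ) (F : ℝ → (Fin 2 → ℝ) → ℂ),
    (∀ᵐ x : ℝ, GoodLevels N (F x)) ∧ ∀ x y, f (L !₂[y 0, y 1, x]) = b x * F x y

/-- The symbol `(1 + 4π²|ζ|²)^(a/2)` of `(I - Δ)^(a/2)`. -/
noncomputable def bessel (a : ℝ) (ζ : E) : ℝ :=
  (1 + 4 * Real.pi ^ 2 * ‖ζ‖ ^ 2) ^ (a / 2)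

/-- For `τ = 0`: the solution `u(t, z)` of the wave equation on `ℝ³` with data
`u(0) = (I - Δ)^(-s/2) f₀`, `∂ₜu(0) = (I - Δ)^((1-s)/2) f₁`, i.e. the inverse Fourier transform of
`cos(2πt|ζ|) (1+4π²|ζ|²)^(-s/2) f₀^(ζ) + sin(2πt|ζ|)/(2π|ζ|) (1+4π²|ζ|²)^((1-s)/2) f₁^(ζ)`.
For `τ > 0`: the same with the factor `exp(-τ|ζ|²)` (the solution regularised by the heat flow). -/
noncomputable def wave (s τ : ℝ) (f₀ f₁ : E → ℂ) (t : ℝ) (z : E) : ℂ :=
  ∫ ζ : E, Complex.exp (((2 * Real.pi * ⟪z, ζ⟫ : ℝ) : ℂ) * Complex.I) *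
    (((Real.exp (-(τ * ‖ζ‖ ^ 2)) : ℝ) : ℂ) *
      (((Real.cos (2 * Real.pi * (t * ‖ζ‖)) * bessel (-s) ζ : ℝ) : ℂ) * 𝓕 f₀ ζ +
       ((Real.sin (2 * Real.pi * (t * ‖ζ‖)) / (2 * Real.pi * ‖ζ‖) * bessel (1 - s) ζ : ℝ) : ℂ) *
        𝓕 f₁ ζ))

/-- The function `y ↦ f(L(y₀, y₁, x))` on `ℝ²` (only used in `variation_data`). -/
noncomputable def slice (f : E → ℂ) (L : E ≃ₗᵢ[ℝ] E) (x : ℝ) (y : Fin 2 → ℝ) : ℂ :=
  f (L !₂[y 0, y 1, x])

/-- The class of data of `variation_data`: for some linear isometry `L`, with `f_x` the slice,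
`∫_ℝ (‖f_x‖_∞ Var(f_x)^(p-1) + Var(f_x)^p) dx ≤ N ∫_{ℝ³} |f|^p`. -/
def VarData (p N : ℝ) (f : E → ℂ) : Prop :=
  ∃ L : E ≃ₗᵢ[ℝ] E, ∫⁻ x : ℝ, (eLpNorm (slice f L x) ⊤ volume * variation (slice f L x) ^ (p - 1) +
    variation (slice f L x) ^ p) ≤ ENNReal.ofReal N * ∫⁻ z, ‖f z‖ₑ ^ p

lemma variation_eq (g : (Fin 2 → ℝ) → ℂ) : variation g = Pool.Agent.TH218.LS.vr g :=
  (Pool.Agent.TH218.LS.vr_eq g).symm

lemma slice_eq (f : E → ℂ) (L : E ≃ₗᵢ[ℝ] E) (x : ℝ) :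
    slice f L x = Pool.Agent.TH218.LS.slc f L x := by
  funext y
  unfold slice Pool.Agent.TH218.LS.slc
  rw [Pool.Agent.TH218.LS.Zc_symm_two]

lemma wave_eq (s τ : ℝ) (f₀ f₁ : E → ℂ) (t : ℝ) (z : E) :
    wave s τ f₀ f₁ t z = Pool.Agent.TH280.LS.wv 3 s τ f₀ f₁ t z := by
  have hneg : -s / 2 = -(s / 2) := by ring
  unfold wave Pool.Agent.TH280.LS.wv bessel Pool.Agent.TH280.LS.e
  rw [hneg]

/-- the estimate of helper280's library for the propagators on the line -/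
lemma onek : Pool.Agent.TH280.LS.S_ONEK := by
  open Pool.Agent.TH280.LS in
  have hW : S_W := Pool.Agent.TH889.W.w_thm
  have hDUAL : S_DUAL := Pool.Agent.TH889.DUAL.dual_thm Pool.Agent.TH496.MOD.mod_thm hW
  have hSUM : S_SUM := Pool.Agent.TH986.SUM.sum_thm (Pool.Agent.TH73.LS4.ls4_thm hDUAL hW)
  exact Pool.Agent.TH346.ONEK.onek_thm (Pool.Agent.TH499.SUMK.sumk_thm hSUM)

/-- Variant of `result`: let `2 < p ≤ 4`, `s > 0`, `s > 1 - 3/p`. There is a constant `C` such that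
for all `N`, all integrable `f₀, f₁` in the class `VarData p N` and `τ` as in `result`,
`∫_1^2 ‖u(t)‖_p^p dt ≤ C N (‖f₀‖_p^p + ‖f₁‖_p^p)`. -/
theorem variation_data (s p : ℝ) (hs : 0 < s) (hs2 : 1 - 3 / p < s) (hp : 2 < p) (hp4 : p ≤ 4) :
    ∃ C : ℝ, 0 < C ∧ ∀ (N : ℝ) (f₀ f₁ : E → ℂ), Integrable f₀ → Integrable f₁ →
      VarData p N f₀ → VarData p N f₁ → ∀ τ : ℝ, 0 ≤ τ → τ ≤ 1 →
      (0 < τ ∨ (Integrable (fun ζ => ((bessel (-s) ζ : ℝ) : ℂ) * 𝓕 f₀ ζ) ∧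
        Integrable (fun ζ => ((bessel (-s) ζ : ℝ) : ℂ) * 𝓕 f₁ ζ))) →
      ∫⁻ t in Icc (1 : ℝ) 2, ∫⁻ z, ‖wave s τ f₀ f₁ t z‖ₑ ^ p ≤
        ENNReal.ofReal (C * N) * ((∫⁻ z, ‖f₀ z‖ₑ ^ p) + ∫⁻ z, ‖f₁ z‖ₑ ^ p) := by
  have hone := Pool.Agent.TH218.LS.one_KA Pool.Agent.TH883.E4R.e4r_thm onek
    Pool.Agent.TH148.T2K.t2k_thm Pool.Agent.TH902.T4K.t4k_thm Pool.Agent.TH962.TPK.tpk_thm
    s p hs hs2 hp hp4
  obtain ⟨C, hC, h⟩ := Pool.Agent.TH218.LS.wv_allK 2 s p _ hone hs hp.le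
  refine ⟨C, hC, ?_⟩
  intro N f₀ f₁ h0 h1 hc0 hc1 τ hτ hτ1 hcase
  have hneg : -s / 2 = -(s / 2) := by ring
  have key := h f₀ f₁ h0 h1 τ hτ hτ1 (by
    unfold bessel at hcase
    rw [hneg] at hcase
    exact hcase)
  simp only [wave_eq]
  refine key.trans ?_
  rw [ENNReal.ofReal_mul hC.le, mul_assoc]
  refine mul_le_mul_right ?_ _
  rw [mul_add]
  have hK : ∀ f : E → ℂ, VarData p N f →
      Pool.Agent.TH218.LS.KA p f ≤ ENNReal.ofReal N * ∫⁻ z, ‖f z‖ₑ ^ p := by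
    rintro f ⟨L, hL⟩
    refine le_trans (iInf_le _ L) (le_trans (le_of_eq ?_) hL)
    refine lintegral_congr fun x => ?_
    rw [variation_eq, slice_eq]
  exact add_le_add (hK f₀ hc0) (hK f₁ hc1)

/-- **Local smoothing in `ℝ³` for data whose slices have level sets of controlled perimeter.** Let
`2 < p ≤ 4`, `s > 0`, `s > 1 - 3/p` and `N > 0`. There is a constant `C` such that for all
integrable `f₀, f₁` in the class `Data N` and all `0 ≤ τ ≤ 1`, where for `τ = 0` we assume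
that `(I - Δ)^(-s/2) f₀` and `(I - Δ)^(-s/2) f₁` have integrable Fourier transforms (this holds
for Schwartz functions), `∫_1^2 ‖u(t)‖_p^p dt ≤ C (‖f₀‖_p^p + ‖f₁‖_p^p)`. -/
theorem result (s p N : ℝ) (hs : 0 < s) (hs2 : 1 - 3 / p < s) (hp : 2 < p) (hp4 : p ≤ 4)
    (hN : 0 < N) :
    ∃ C : ℝ, 0 < C ∧ ∀ f₀ f₁ : E → ℂ, Integrable f₀ → Integrable f₁ →
      Data N f₀ → Data N f₁ → ∀ τ : ℝ, 0 ≤ τ → τ ≤ 1 →
      (0 < τ ∨ (Integrable (fun ζ => ((bessel (-s) ζ : ℝ) : ℂ) * 𝓕 f₀ ζ) ∧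
        Integrable (fun ζ => ((bessel (-s) ζ : ℝ) : ℂ) * 𝓕 f₁ ζ))) →
      ∫⁻ t in Icc (1 : ℝ) 2, ∫⁻ z, ‖wave s τ f₀ f₁ t z‖ₑ ^ p ≤
        ENNReal.ofReal C * ((∫⁻ z, ‖f₀ z‖ₑ ^ p) + ∫⁻ z, ‖f₁ z‖ₑ ^ p) := by
  have hone := Pool.Agent.TH218.LS.one_DL Pool.Agent.TH883.E4R.e4r_thm onek
    Pool.Agent.TH148.T2K.t2k_thm Pool.Agent.TH902.T4K.t4k_thm Pool.Agent.TH962.TPK.tpk_thm
    s p N hs hs2 hp hp4 hN
  obtain ⟨C, hC, h⟩ := Pool.Agent.TH280.LS.wv_all 2 s p _ hone hs hp.le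
  refine ⟨C, hC, ?_⟩
  intro f₀ f₁ h0 h1 hc0 hc1 τ hτ hτ1 hcase
  have hneg : -s / 2 = -(s / 2) := by ring
  have hD : ∀ f : E → ℂ, Data N f → Pool.Agent.TH218.LS.DL N f := by
    rintro f ⟨L, b, F, hF, hf⟩
    refine ⟨L, b, F, ?_, ?_⟩
    · intro x y
      rw [← slice_eq]
      exact hf x y
    · filter_upwards [hF] with x hx c hc l hl
      have := hx c hc l hl
      unfold perimeter at this
      rwa [variation_eq] at this
  have key := h f₀ f₁ h0 h1 (hD f₀ hc0) (hD f₁ hc1) τ hτ hτ1 (by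
    unfold bessel at hcase
    rw [hneg] at hcase
    exact hcase)
  simp only [wave_eq]
  exact key

end Pool.Agent.Results.MP_ee74d2_an.PerimeterSlices
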