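import Pool.Agent.TH280.LS.K3
import Pool.Agent.TH400.LS_E4
import Pool.Agent.TH89.LS_F
import Pool.Agent.TH496.LS_MOD
import Pool.Agent.TH889.LS_W
import Pool.Agent.TH889.LS_DUAL
import Pool.Agent.TH73.LS_LS4
import Pool.Agent.TH986.LS_SUM
import Pool.Agent.TH312.LS_ONE
import Pool.Agent.TH902.LS_T2
import Pool.Agent.TH228.LS_T4
import Pool.Agent.TH209.LS_TP
import Pool.Agent.TH807.LS_CL
set_option autoImplicit false

/-! # Local smoothing for data which are piecewise monotone in `d - 1` variables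

The estimate of Q1 in every dimension `d = m + 1 ≥ 2`, for `2 ≤ p ≤ 4` (for `d ≥ 3` this contains
all exponents `2d/(d-1) ≤ p < 2(d+1)/(d-1)` for which the conjecture is open) and with
`s_p - σ` replaced by any `s > 0` (if `p ≥ 2d/(d-1)` and `σ < 1/p` then `s_p - σ > 0`), for all data
which in some orthonormal coordinates `(y,x)`, `y ∈ ℝ^{d-1}`, `x ∈ ℝ`, are products
`b(x) F_1(x,y_1) ⋯ F_{d-1}(x,y_{d-1})` with `F_i(x,·)` piecewise monotone with `k` pieces; the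
dependence on `x` is arbitrary.
-/

open MeasureTheory Set
open scoped ENNReal FourierTransform RealInnerProductSpace

namespace Pool.Agent.Results.MP_ee74d2_an.PiecewiseMonotoneData

/-- `ℝ^d` -/
abbrev E (d : ℕ) : Type := EuclideanSpace ℝ (Fin d)

/-- `F` is piecewise monotone with `k` pieces: the line is the union of `k` pairwise disjoint
intervals (of any kind, possibly empty) on each of which `F` is nondecreasing or nonincreasing. -/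
def PiecewiseMonotone (k : ℕ) (F : ℝ → ℝ) : Prop :=
  ∃ I : Fin k → Set ℝ, (∀ i, (I i).OrdConnected) ∧ Pairwise (Function.onFun Disjoint I) ∧
    (⋃ i, I i) = Set.univ ∧ ∀ i, MonotoneOn F (I i) ∨ AntitoneOn F (I i)

/-- The class of data on `ℝ^(m+1)`: for some orthonormal basis `v_0, …, v_m`, with
`x = ⟨v_m, z⟩` and `y_i = ⟨v_i, z⟩` for `i < m`, one has `f(z) = b(x) ∏_{i<m} F_i(x, y_i)`, where
`b` is any complex function, and `F_i(x, ·)` is piecewise monotone with `k` pieces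
for all `i` and `x`. -/
def Data (m k : ℕ) (f : E (m + 1) → ℂ) : Prop :=
  ∃ (v : OrthonormalBasis (Fin (m + 1)) ℝ (E (m + 1))) (b : ℝ → ℂ) (F : Fin m → ℝ → ℝ → ℝ),
    (∀ i x, PiecewiseMonotone k (F i x)) ∧
    ∀ z, f z = b (⟪v (Fin.last m), z⟫ : ℝ) *
      ∏ i : Fin m, ((F i (⟪v (Fin.last m), z⟫ : ℝ) (⟪v i.castSucc, z⟫ : ℝ) : ℝ) : ℂ)

/-- The symbol `(1 + 4π²|ζ|²)^(a/2)` of `(I - Δ)^(a/2)`. -/
noncomputable def bessel {d : ℕ} (a : ℝ) (ζ : E d) : ℝ :=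
  (1 + 4 * Real.pi ^ 2 * ‖ζ‖ ^ 2) ^ (a / 2)

/-- For `τ = 0`: the solution `u(t, z)` of the wave equation on `ℝ^d` with data
`u(0) = (I - Δ)^(-s/2) f₀`, `∂ₜu(0) = (I - Δ)^((1-s)/2) f₁`, i.e. the inverse Fourier transform of
`cos(2πt|ζ|) (1+4π²|ζ|²)^(-s/2) f₀^(ζ) + sin(2πt|ζ|)/(2π|ζ|) (1+4π²|ζ|²)^((1-s)/2) f₁^(ζ)`.
For `τ > 0`: the same with the factor `exp(-τ|ζ|²)` (the solution regularised by the heat flow). -/
noncomputable def wave {d : ℕ} (s τ : ℝ) (f₀ f₁ : E d → ℂ) (t : ℝ) (z : E d) : ℂ :=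
  ∫ ζ : E d, Complex.exp (((2 * Real.pi * ⟪z, ζ⟫ : ℝ) : ℂ) * Complex.I) *
    (((Real.exp (-(τ * ‖ζ‖ ^ 2)) : ℝ) : ℂ) *
      (((Real.cos (2 * Real.pi * (t * ‖ζ‖)) * bessel (-s) ζ : ℝ) : ℂ) * 𝓕 f₀ ζ +
       ((Real.sin (2 * Real.pi * (t * ‖ζ‖)) / (2 * Real.pi * ‖ζ‖) * bessel (1 - s) ζ : ℝ) : ℂ) *
        𝓕 f₁ ζ))

/-- **Local smoothing for piecewise monotone data.** Let `d = m + 1 ≥ 2`, `s > 0`, `2 ≤ p ≤ 4` and
`k ∈ ℕ`. There is a constant `C` such that for all integrable `f₀, f₁` in the class `Data m k` and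
all `0 ≤ τ ≤ 1`, where for `τ = 0` we assume that `u(0) = (I - Δ)^(-s/2) f₀` and
`(I - Δ)^(-s/2) f₁` have integrable Fourier transforms (this holds for Schwartz data),
`∫_1^2 ‖u(t)‖_p^p dt ≤ C (‖f₀‖_p^p + ‖f₁‖_p^p)`. -/
theorem result (m k : ℕ) (hm : 1 ≤ m) (s p : ℝ) (hs : 0 < s) (hp : 2 ≤ p) (hp4 : p ≤ 4) :
    ∃ C : ℝ, 0 < C ∧ ∀ f₀ f₁ : E (m + 1) → ℂ, Integrable f₀ → Integrable f₁ →
      Data m k f₀ → Data m k f₁ → ∀ τ : ℝ, 0 ≤ τ → τ ≤ 1 →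
      (0 < τ ∨ (Integrable (fun ζ => ((bessel (-s) ζ : ℝ) : ℂ) * 𝓕 f₀ ζ) ∧
        Integrable (fun ζ => ((bessel (-s) ζ : ℝ) : ℂ) * 𝓕 f₁ ζ))) →
      ∫⁻ t in Icc (1 : ℝ) 2, ∫⁻ z, ‖wave s τ f₀ f₁ t z‖ₑ ^ p ≤
        ENNReal.ofReal C * ((∫⁻ z, ‖f₀ z‖ₑ ^ p) + ∫⁻ z, ‖f₁ z‖ₑ ^ p) := by
  open Pool.Agent.TH280.LS in
  have hW : S_W := Pool.Agent.TH889.W.w_thm
  have hDUAL : S_DUAL := Pool.Agent.TH889.DUAL.dual_thm Pool.Agent.TH496.MOD.mod_thm hW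
  have hONE : S_ONE := Pool.Agent.TH312.ONE.one_thm
    (Pool.Agent.TH986.SUM.sum_thm (Pool.Agent.TH73.LS4.ls4_thm hDUAL hW))
  have hTP : S_TP := Pool.Agent.TH209.TP.tp_thm Pool.Agent.TH902.T2.t2_thm
    (Pool.Agent.TH228.T4.t4_thm Pool.Agent.TH400.E4.e4_thm hONE)
  have hCL : S_CL := Pool.Agent.TH807.CL.cl_thm Pool.Agent.TH89.F.f_thm
  obtain ⟨C, hC, h⟩ := wv_all m s p (InClass m k)
    (one_datum hTP hCL m k s p hm hs hp hp4) hs hp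
  refine ⟨C, hC, ?_⟩
  intro f₀ f₁ h0 h1 hc0 hc1 τ hτ hτ1 hcase
  have hneg : -s / 2 = -(s / 2) := by ring
  have key := h f₀ f₁ h0 h1 hc0 hc1 τ hτ hτ1 (by
    unfold bessel at hcase
    rw [hneg] at hcase
    exact hcase)
  have hw : ∀ t z, wave s τ f₀ f₁ t z = wv (m + 1) s τ f₀ f₁ t z := by
    intro t z
    unfold wave wv bessel e
    rw [hneg]
  simp only [hw]
  exact key

end Pool.Agent.Results.MP_ee74d2_an.PiecewiseMonotoneData
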