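import Pool.Agent.TH280.LS.K6
import Pool.Agent.TH496.LS_MOD
import Pool.Agent.TH889.LS_W
import Pool.Agent.TH889.LS_DUAL
import Pool.Agent.TH73.LS_LS4
import Pool.Agent.TH986.LS_SUM
import Pool.Agent.TH312.LS_ONE
import Pool.Agent.TH902.LS_T2
import Pool.Agent.TH883.LS.LSB_E4R
import Pool.Agent.TH883.LS.LSB_BALL
import Pool.Agent.TH617.LSB_T4W
import Pool.Agent.TH364.LSB_TPW
import Pool.Agent.TH554.LSB_CLR
import Pool.Agent.TH499.LSC_SUMK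
import Pool.Agent.TH346.LSC_ONEK
import Pool.Agent.TH148.LSC_T2K
import Pool.Agent.TH902.LSC_T4K
import Pool.Agent.TH962.LSC_TPK
import Pool.Agent.TH324.LS.LSC_CLRK
set_option autoImplicit false

/-! # Local smoothing for data with radially decreasing slices

The estimate of Q1 in every dimension `d ≥ 3`, for `2 ≤ p ≤ 4` (this contains all exponents
`2d/(d-1) ≤ p < 2(d+1)/(d-1)` for which the conjecture is open) and with `s_p - σ` replaced by any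
`s > max(0, (d-2)/2 - (d-1)/p)` (if `p ≥ 2d/(d-1)` and `σ < 1/p` then `s_p - σ` is such an `s`), for
all data `f` on `ℝ^d` whose restriction to every hyperplane orthogonal to some direction is a
multiple of a nonincreasing function of the distance to a point. The point, the profile and the
factor depend on the hyperplane in an arbitrary way. If `p < 2(d-1)/(d-2)` (for `d = 3`: `p < 4`)
there is no other condition; otherwise we assume that the profiles vanish outside a fixed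
interval `[0, R₀]`.
-/

open MeasureTheory Set
open scoped ENNReal FourierTransform RealInnerProductSpace

namespace Pool.Agent.Results.MP_ee74d2_an.RadialSliceData

/-- `ℝ^d` -/
abbrev E (d : ℕ) : Type := EuclideanSpace ℝ (Fin d)

/-- The class of data on `ℝ^d`: for some unit vector `u`, and with `x = ⟨u, z⟩`, one has
`f(z) = b(x) F(x, |z - γ(x)|)` for arbitrary functions `b : ℝ → ℂ` and `γ : ℝ → ℝ^d` and a
real function `F` such that `F(x, ·)` is nonincreasing on `[0, ∞)` and vanishes on `(R₀, ∞)` for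
every `x`. Here `0 ≤ R₀ ≤ ∞`; for `R₀ = ∞` the last condition is empty. -/
def Data {d : ℕ} (R₀ : ℝ≥0∞) (f : E d → ℂ) : Prop :=
  ∃ (u : E d) (γ : ℝ → E d) (b : ℝ → ℂ) (F : ℝ → ℝ → ℝ),
    ‖u‖ = 1 ∧ (∀ x, AntitoneOn (F x) (Ici 0)) ∧ (∀ x r, R₀ < ENNReal.ofReal r → F x r = 0) ∧
    ∀ z, f z = b (⟪u, z⟫ : ℝ) * ((F (⟪u, z⟫ : ℝ) ‖z - γ (⟪u, z⟫ : ℝ)‖ : ℝ) : ℂ)

/-- The symbol `(1 + 4π²|ζ|²)^(a/2)` of `(I - Δ)^(a/2)`. -/
noncomputable def bessel {d : ℕ} (a : ℝ) (ζ : E d) : ℝ :=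
  (1 + 4 * Real.pi ^ 2 * ‖ζ‖ ^ 2) ^ (a / 2)

/-- For `τ = 0`: the solution `u(t, z)` of the wave equation on `ℝ^d` with data
`u(0) = (I - Δ)^(-s/2) f₀`, `∂ₜu(0) = (I - Δ)^((1-s)/2) f₁`, i.e. the inverse Fourier transform of
`cos(2πt|ζ|) (1+4π²|ζ|²)^(-s/2) f₀^(ζ) + sin(2πt|ζ|)/(2π|ζ|) (1+4π²|ζ|²)^((1-s)/2) f₁^(ζ)`.
For `τ > 0`: the same with the factor `exp(-τ|ζ|²)` (the solution regularised by the heat flow). -/
noncomputable def wave {d : ℕ} (s τ : ℝ) (f₀ f₁ : E d → ℂ) (t : ℝ) (z : E d) : ℂ :=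
  ∫ ζ : E d, Complex.exp (((2 * Real.pi * ⟪z, ζ⟫ : ℝ) : ℂ) * Complex.I) *
    (((Real.exp (-(τ * ‖ζ‖ ^ 2)) : ℝ) : ℂ) *
      (((Real.cos (2 * Real.pi * (t * ‖ζ‖)) * bessel (-s) ζ : ℝ) : ℂ) * 𝓕 f₀ ζ +
       ((Real.sin (2 * Real.pi * (t * ‖ζ‖)) / (2 * Real.pi * ‖ζ‖) * bessel (1 - s) ζ : ℝ) : ℂ) *
        𝓕 f₁ ζ))

/-- **Local smoothing for data with radially decreasing slices.** Let `d ≥ 3`, `2 ≤ p ≤ 4`, `s > 0`,
`s > (d-2)/2 - (d-1)/p`, and let `R₀ < ∞` or `p < 2(d-1)/(d-2)`. There is a constant `C` such that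
for all integrable `f₀, f₁` in the class `Data R₀` and all `0 ≤ τ ≤ 1`, where for `τ = 0` we assume
that `(I - Δ)^(-s/2) f₀` and `(I - Δ)^(-s/2) f₁` have integrable Fourier transforms (this holds
for Schwartz functions), `∫_1^2 ‖u(t)‖_p^p dt ≤ C (‖f₀‖_p^p + ‖f₁‖_p^p)`. -/
theorem result (d : ℕ) (hd : 3 ≤ d) (s p : ℝ) (hs : 0 < s)
    (hs2 : ((d : ℝ) - 2) / 2 - ((d : ℝ) - 1) / p < s) (hp : 2 ≤ p) (hp4 : p ≤ 4) (R₀ : ℝ≥0∞)
    (hR : R₀ < ⊤ ∨ p < 2 * ((d : ℝ) - 1) / ((d : ℝ) - 2)) :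
    ∃ C : ℝ, 0 < C ∧ ∀ f₀ f₁ : E d → ℂ, Integrable f₀ → Integrable f₁ →
      Data R₀ f₀ → Data R₀ f₁ → ∀ τ : ℝ, 0 ≤ τ → τ ≤ 1 →
      (0 < τ ∨ (Integrable (fun ζ => ((bessel (-s) ζ : ℝ) : ℂ) * 𝓕 f₀ ζ) ∧
        Integrable (fun ζ => ((bessel (-s) ζ : ℝ) : ℂ) * 𝓕 f₁ ζ))) →
      ∫⁻ t in Icc (1 : ℝ) 2, ∫⁻ z, ‖wave s τ f₀ f₁ t z‖ₑ ^ p ≤
        ENNReal.ofReal C * ((∫⁻ z, ‖f₀ z‖ₑ ^ p) + ∫⁻ z, ‖f₁ z‖ₑ ^ p) := by
  open Pool.Agent.TH280.LS in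
  have hW : S_W := Pool.Agent.TH889.W.w_thm
  have hDUAL : S_DUAL := Pool.Agent.TH889.DUAL.dual_thm Pool.Agent.TH496.MOD.mod_thm hW
  have hSUM : S_SUM := Pool.Agent.TH986.SUM.sum_thm (Pool.Agent.TH73.LS4.ls4_thm hDUAL hW)
  have hONE : S_ONE := Pool.Agent.TH312.ONE.one_thm hSUM
  have hONEK : S_ONEK := Pool.Agent.TH346.ONEK.onek_thm (Pool.Agent.TH499.SUMK.sumk_thm hSUM)
  have hBALL : S_BALL := Pool.Agent.TH883.BALL.ball_thm
  obtain ⟨m, rfl⟩ : ∃ m, d = m + 1 := ⟨d - 1, by omega⟩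
  have hm : 2 ≤ m := by omega
  have e1 : (((m + 1 : ℕ) : ℝ) - 1) = (m : ℝ) := by push_cast; ring
  have e2 : (((m + 1 : ℕ) : ℝ) - 2) = (m : ℝ) - 1 := by push_cast; ring
  rw [e1, e2] at hs2 hR
  have hone : OneD m s p (K5.InClassB m R₀) :=
    K5.classB_one Pool.Agent.TH883.E4R.e4r_thm hONEK Pool.Agent.TH148.T2K.t2k_thm
      Pool.Agent.TH902.T4K.t4k_thm Pool.Agent.TH962.TPK.tpk_thm
      (Pool.Agent.TH554.CLR.clr_thm hBALL) (Pool.Agent.TH324.CLRK.clrk_thm hBALL) hONE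
      Pool.Agent.TH617.T4W.t4w_thm Pool.Agent.TH902.T2.t2_thm Pool.Agent.TH364.TPW.tpw_thm
      m hm s p hs hs2 hp hp4 R₀ hR
  obtain ⟨C, hC, h⟩ := wv_all m s p (K5.InClassB m R₀) hone hs hp
  refine ⟨C, hC, ?_⟩
  intro f₀ f₁ h0 h1 hc0 hc1 τ hτ hτ1 hcase
  have hneg : -s / 2 = -(s / 2) := by ring
  have key := h f₀ f₁ h0 h1 hc0 hc1 τ hτ hτ1 (by
    unfold bessel at hcase
    rw [hneg] at hcase
    exact hcase)
  have hw : ∀ t z, wave s τ f₀ f₁ t z = wv (m + 1) s τ f₀ f₁ t z := by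
    intro t z
    unfold wave wv bessel e
    rw [hneg]
  simp only [hw]
  exact key

end Pool.Agent.Results.MP_ee74d2_an.RadialSliceData
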